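import Mathlib
import Pool.Agent.MP_2a37ed_ag.Final

namespace Pool.Agent.Results.MP_2a37ed_ag.CompleteCurve

open Matrix Polynomial Pool.Agent.MP_2a37ed_ag

theorem result (n : ℕ) (G H : Subgroup (GL (Fin n) ℂ)) (hG : IsAlg G) (hH : IsAlg H)
    (hHG : H ≤ G) (cG : IsConnected (G : Set (GL (Fin n) ℂ)))
    (cH : IsConnected (H : Set (GL (Fin n) ℂ)))
    (h3 : ∀ K : Subgroup (GL (Fin n) ℂ), IsAlg K → H ≤ K → K ≤ G → K ≠ G → ¬ IsVecStab G K) :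
    ∃ (N : ℕ) (ρ : G →* GL (Fin N) ℂ) (w : Fin N → ℂ),
      (∀ i j, ∃ F : GL (Fin n) ℂ → ℂ, Pool.Agent.MP_2a37ed_ag.IsRegular F ∧
        ∀ g : G, (ρ g).val i j = F (g : GL (Fin n) ℂ)) ∧ w ≠ 0 ∧
      (∀ g : G, (g : GL (Fin n) ℂ) ∈ H ↔ ∃ c : ℂ, (ρ g).val *ᵥ w = c • w) ∧
      ∃ (I : Ideal (MvPolynomial (Fin N) ℂ)) (p : Fin N → ℂ[X]), I.IsPrime ∧
        (∀ v : Fin N → ℂ, (∀ f ∈ I, MvPolynomial.eval v f = 0) ↔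
          ∃ c : ℂ, v = c • w ∨ ∃ τ : ℂ, v = c • fun i => (p i).eval τ) ∧
        (∀ τ : ℂ, ∃ g : G, (fun i => (p i).eval τ) = (ρ g).val *ᵥ w) ∧
        ∀ K : Subgroup (GL (Fin n) ℂ), IsAlg K → H ≤ K → K ≤ G → K ≠ G → ∀ g : G,
          ¬ ∀ v : Fin N → ℂ, (∀ f ∈ I, MvPolynomial.eval v f = 0) →
            ∃ k : G, (k : GL (Fin n) ℂ) ∈ K ∧ ∃ c : ℂ, v = c • ((ρ (g * k)).val *ᵥ w) :=
  main2_stmt n G H hG hH hHG cG cH h3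

end Pool.Agent.Results.MP_2a37ed_ag.CompleteCurve
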