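import Mathlib
import Pool.Agent.MP_2a37ed_ag.EF.Main

/-!
If every right `H`-invariant regular function on `G` is constant, then every module induced from a
finite-dimensional rational representation of `H` is finite-dimensional.
-/

set_option autoImplicit false

namespace Pool.Agent.Results.MP_2a37ed_ag.InducedFinite

open Matrix Pool.Agent.MP_2a37ed_ag

theorem result (n N : ℕ) (G H : Subgroup (GL (Fin n) ℂ)) (hG : IsAlg G) (hH : IsAlg H)
    (hHG : H ≤ G) (cG : IsConnected (G : Set (GL (Fin n) ℂ)))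
    (cH : IsConnected (H : Set (GL (Fin n) ℂ)))
    (hE : ∀ F : GL (Fin n) ℂ → ℂ, Pool.Agent.MP_2a37ed_ag.IsRegular F →
      (∀ g ∈ G, ∀ h ∈ H, F (g * h) = F g) → ∀ g ∈ G, F g = F 1)
    (σ : H →* GL (Fin N) ℂ)
    (hσ : ∀ i j, ∃ F : GL (Fin n) ℂ → ℂ, Pool.Agent.MP_2a37ed_ag.IsRegular F ∧
      ∀ h : H, (σ h).val i j = F (h : GL (Fin n) ℂ)) :
    FiniteDimensional ℂ (Submodule.span ℂ {f : G → Fin N → ℂ |
      (∀ i, ∃ F : GL (Fin n) ℂ → ℂ, Pool.Agent.MP_2a37ed_ag.IsRegular F ∧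
        ∀ g : G, f g i = F (g : GL (Fin n) ℂ)) ∧
      ∀ (g : G) (h : H), f (g * Subgroup.inclusion hHG h) = ((σ h)⁻¹).val *ᵥ f g}) :=
  EF.ef hG hH hHG cG cH hE σ hσ

end Pool.Agent.Results.MP_2a37ed_ag.InducedFinite
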